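import Mathlib

set_option autoImplicit false

namespace Pool.Agent.H18.Met

/-- abstract step: a cyclic submodule stable under four operators with the Leavitt relations -/
theorem abstract {R M : Type} [Ring R] [AddCommGroup M] [Module R M] (x y x' y' : M →ₗ[R] M)
    (h1 : ∀ m, x' (x m) = m) (h2 : ∀ m, y' (y m) = m) (h3 : ∀ m, x' (y m) = 0)
    (h4 : ∀ m, y' (x m) = 0) (h5 : ∀ m, x (x' m) + y (y' m) = m) (v : M) (hv : v ≠ 0)
    (hx : x v ∈ Submodule.span R {v}) (hy : y v ∈ Submodule.span R {v})
    (hx' : x' v ∈ Submodule.span R {v}) (hy' : y' v ∈ Submodule.span R {v}) :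
    ∃ (V : Type) (_ : AddCommGroup V) (_ : Module R V),
        Nontrivial V ∧ (∃ v : V, Submodule.span R {v} = ⊤) ∧ Nonempty (V ≃ₗ[R] (V × V)) := by
  set N := Submodule.span R {v} with hN
  have key : ∀ f : M →ₗ[R] M, f v ∈ N → ∀ m ∈ N, f m ∈ N := by
    intro f hf m hm
    obtain ⟨r, rfl⟩ := Submodule.mem_span_singleton.1 hm
    rw [map_smul]
    exact N.smul_mem r hf
  have hvN : v ∈ N := Submodule.mem_span_singleton_self v
  refine ⟨N, inferInstance, inferInstance, ⟨⟨⟨v, hvN⟩, 0, fun e => hv (congrArg Subtype.val e)⟩⟩,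
    ⟨⟨v, hvN⟩, ?_⟩, ⟨?_⟩⟩
  · rw [eq_top_iff]
    rintro ⟨m, hm⟩ -
    obtain ⟨r, rfl⟩ := Submodule.mem_span_singleton.1 hm
    exact Submodule.mem_span_singleton.2 ⟨r, rfl⟩
  · refine LinearEquiv.ofLinearMap
      ((x'.restrict (key x' hx')).prod (y'.restrict (key y' hy')))
      ((x.restrict (key x hx)).coprod (y.restrict (key y hy))) ?_ ?_
    · apply LinearMap.ext
      rintro ⟨a, b⟩
      refine Prod.ext (Subtype.ext ?_) (Subtype.ext ?_) <;> simp [h1, h2, h3, h4]
    · apply LinearMap.ext
      intro a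
      apply Subtype.ext
      simp [h5]

/-- coefficient group -/
abbrev P := ℕ → ℤ

/-- the four operators on the coefficient group -/
def s : Fin 4 → Module.End ℤ P :=
  ![{ toFun := fun f n => if n % 2 = 0 then f (n / 2) else 0
      map_add' := fun f g => by funext n; by_cases h : n % 2 = 0 <;> simp [h]
      map_smul' := fun c f => by funext n; by_cases h : n % 2 = 0 <;> simp [h] },
    { toFun := fun f n => if n % 2 = 0 then 0 else f (n / 2)
      map_add' := fun f g => by funext n; by_cases h : n % 2 = 0 <;> simp [h]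
      map_smul' := fun c f => by funext n; by_cases h : n % 2 = 0 <;> simp [h] },
    { toFun := fun f n => f (2 * n)
      map_add' := fun f g => rfl
      map_smul' := fun c f => rfl },
    { toFun := fun f n => f (2 * n + 1)
      map_add' := fun f g => rfl
      map_smul' := fun c f => rfl }]

lemma s0 (f : P) (n : ℕ) : s 0 f n = if n % 2 = 0 then f (n / 2) else 0 := rfl
lemma s1 (f : P) (n : ℕ) : s 1 f n = if n % 2 = 0 then 0 else f (n / 2) := rfl
lemma s2 (f : P) (n : ℕ) : s 2 f n = f (2 * n) := rfl
lemma s3 (f : P) (n : ℕ) : s 3 f n = f (2 * n + 1) := rfl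

/-- configurations -/
abbrev Om := ℤ → Option (Fin 4)

/-- the ambient module -/
abbrev MM := Om → P

/-- pointwise operators -/
def S (i : Fin 4) : Module.End ℤ MM where
  toFun f ω := s i (f ω)
  map_add' f g := by funext ω; simp
  map_smul' c f := by funext ω; exact map_smul (s i) c (f ω)

/-- square zero operators -/
def eps (i : Fin 4) (n : ℤ) : Module.End ℤ MM where
  toFun f ω := if ω n = none then f (Function.update ω n (some i)) else 0
  map_add' f g := by funext ω; by_cases h : ω n = none <;> simp [h]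
  map_smul' c f := by funext ω; by_cases h : ω n = none <;> simp [h]

/-- shifts -/
def sh (k : ℤ) : Module.End ℤ MM where
  toFun f ω := f (fun j => ω (j + k))
  map_add' _ _ := rfl
  map_smul' _ _ := rfl

lemma eps_apply (i : Fin 4) (n : ℤ) (f : MM) (ω : Om) :
    eps i n f ω = if ω n = none then f (Function.update ω n (some i)) else 0 := rfl

lemma sh_apply (k : ℤ) (f : MM) (ω : Om) : sh k f ω = f (fun j => ω (j + k)) := rfl

lemma S_apply (i : Fin 4) (f : MM) (ω : Om) : S i f ω = s i (f ω) := rfl

lemma eps_same (i j : Fin 4) (n : ℤ) : eps i n * eps j n = 0 := by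
  ext f ω : 2
  simp [eps_apply]

lemma eps_comm (i j : Fin 4) (n m : ℤ) : eps i n * eps j m = eps j m * eps i n := by
  by_cases h : n = m
  · subst h; rw [eps_same, eps_same]
  · ext f ω : 2
    simp only [Module.End.mul_apply, eps_apply]
    rw [Function.update_of_ne h, Function.update_of_ne (Ne.symm h), Function.update_comm h]
    by_cases h1 : ω n = none <;> by_cases h2 : ω m = none <;> simp [h1, h2]

lemma sh_mul (k l : ℤ) : sh k * sh l = sh (k + l) := by
  ext f ω : 2
  simp only [Module.End.mul_apply, sh_apply]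
  congr 1
  funext j
  congr 1
  ring

lemma sh_zero : sh 0 = 1 := by
  ext f ω : 2
  simp [sh_apply]

lemma sh_eps (k : ℤ) (i : Fin 4) (n : ℤ) : sh k * eps i n = eps i (n + k) * sh k := by
  ext f ω : 2
  simp only [Module.End.mul_apply, eps_apply, sh_apply]
  have : (Function.update (fun j => ω (j + k)) n (some i))
      = fun j => Function.update ω (n + k) (some i) (j + k) := by
    funext j
    by_cases h : j = n
    · subst h; simp
    · rw [Function.update_of_ne h, Function.update_of_ne (fun e => h (add_right_cancel e))]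
  rw [this]

lemma S_eps (i j : Fin 4) (n : ℤ) : S i * eps j n = eps j n * S i := by
  ext f ω : 2
  simp only [Module.End.mul_apply, eps_apply, S_apply]
  by_cases h : ω n = none <;> simp [h]

lemma S_sh (i : Fin 4) (k : ℤ) : S i * sh k = sh k * S i := rfl

/-- unit group -/
abbrev U := (Module.End ℤ MM)ˣ

/-- base generators -/
def al (i : Fin 4) (n : ℤ) : U where
  val := 1 + eps i n
  inv := 1 - eps i n
  val_inv := by rw [add_mul, mul_sub, mul_sub, eps_same]; simp
  inv_val := by rw [sub_mul, mul_add, mul_add, eps_same]; simp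

/-- shift units -/
def ta (k : ℤ) : U where
  val := sh k
  inv := sh (-k)
  val_inv := by rw [sh_mul, add_neg_cancel, sh_zero]
  inv_val := by rw [sh_mul, neg_add_cancel, sh_zero]

lemma ta_mul (k l : ℤ) : ta k * ta l = ta (k + l) := Units.ext (sh_mul k l)
lemma ta_zero : ta 0 = 1 := Units.ext sh_zero
lemma ta_inv (k : ℤ) : (ta k)⁻¹ = ta (-k) := by
  rw [inv_eq_iff_mul_eq_one, ta_mul, add_neg_cancel, ta_zero]

lemma ta_al (k : ℤ) (i : Fin 4) (n : ℤ) : ta k * al i n * (ta k)⁻¹ = al i (n + k) := by
  rw [mul_inv_eq_iff_eq_mul]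
  apply Units.ext
  change sh k * (1 + eps i n) = (1 + eps i (n + k)) * sh k
  rw [mul_add, add_mul, sh_eps]; simp

lemma al_comm (i j : Fin 4) (n m : ℤ) : al i n * al j m = al j m * al i n := by
  apply Units.ext
  change (1 + eps i n) * (1 + eps j m) = (1 + eps j m) * (1 + eps i n)
  simp only [mul_add, add_mul, one_mul, mul_one, eps_comm i j n m]
  abel

/-- base group -/
def A : Subgroup U := Subgroup.closure (Set.range fun p : Fin 4 × ℤ => al p.1 p.2)

/-- the generating set -/
def gens : Set U := insert (ta 1) (Set.range fun i : Fin 4 => al i 0)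

/-- the metabelian group -/
def G : Subgroup U := Subgroup.closure gens

lemma A_comm {a b : U} (ha : a ∈ A) (hb : b ∈ A) : a * b = b * a := by
  have : Commute a b := by
    induction ha, hb using Subgroup.closure_induction₂ with
    | mem x y hx hy =>
      obtain ⟨p, rfl⟩ := hx
      obtain ⟨q, rfl⟩ := hy
      exact al_comm _ _ _ _
    | one_left x _ => exact Commute.one_left x
    | one_right x _ => exact Commute.one_right x
    | mul_left x y z _ _ _ h1 h2 => exact h1.mul_left h2
    | mul_right x y z _ _ _ h1 h2 => exact h1.mul_right h2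
    | inv_left x y _ _ h => exact h.inv_left
    | inv_right x y _ _ h => exact h.inv_right
  exact this

lemma A_conj (k : ℤ) {a : U} (ha : a ∈ A) : ta k * a * (ta k)⁻¹ ∈ A := by
  induction ha using Subgroup.closure_induction with
  | mem x hx =>
    obtain ⟨p, rfl⟩ := hx
    rw [ta_al]
    exact Subgroup.subset_closure ⟨(p.1, p.2 + k), rfl⟩
  | one => simpa using A.one_mem
  | mul x y _ _ h1 h2 =>
    have : ta k * (x * y) * (ta k)⁻¹ = (ta k * x * (ta k)⁻¹) * (ta k * y * (ta k)⁻¹) := by group
    rw [this]; exact A.mul_mem h1 h2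
  | inv x _ h =>
    have : ta k * x⁻¹ * (ta k)⁻¹ = (ta k * x * (ta k)⁻¹)⁻¹ := by group
    rw [this]; exact A.inv_mem h

lemma G_form {g : U} (hg : g ∈ G) : ∃ a ∈ A, ∃ k, g = a * ta k := by
  induction hg using Subgroup.closure_induction with
  | mem x hx =>
    rcases hx with rfl | ⟨i, rfl⟩
    · exact ⟨1, A.one_mem, 1, by simp⟩
    · exact ⟨al i 0, Subgroup.subset_closure ⟨(i, 0), rfl⟩, 0, by simp [ta_zero]⟩
  | one => exact ⟨1, A.one_mem, 0, by simp [ta_zero]⟩
  | mul x y _ _ h1 h2 =>
    obtain ⟨a, ha, k, rfl⟩ := h1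
    obtain ⟨b, hb, l, rfl⟩ := h2
    refine ⟨a * (ta k * b * (ta k)⁻¹), A.mul_mem ha (A_conj k hb), k + l, ?_⟩
    rw [← ta_mul]; group
  | inv x _ h =>
    obtain ⟨a, ha, k, rfl⟩ := h
    refine ⟨ta (-k) * a⁻¹ * (ta (-k))⁻¹, A_conj (-k) (A.inv_mem ha), -k, ?_⟩
    rw [← ta_inv]; group

lemma G_fg : Group.FG G := by
  have : Finite gens := by
    unfold gens
    exact ((Set.finite_range _).insert _).to_subtype
  exact Group.closure_finite_fg gens

lemma G_met : derivedSeries G 2 = ⊥ := by
  have h1 : derivedSeries G 1 ≤ A.subgroupOf G := by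
    rw [derivedSeries_succ, derivedSeries_zero, Subgroup.commutator_le]
    rintro ⟨g, hg⟩ - ⟨h, hh⟩ -
    obtain ⟨a, ha, k, rfl⟩ := G_form hg
    obtain ⟨b, hb, l, rfl⟩ := G_form hh
    rw [Subgroup.mem_subgroupOf, commutatorElement_def]
    have hc : ta k * ta l = ta l * ta k := by rw [ta_mul, ta_mul, add_comm]
    have : a * ta k * (b * ta l) * (a * ta k)⁻¹ * (b * ta l)⁻¹
        = a * (ta k * b * (ta k)⁻¹) * (ta l * a⁻¹ * (ta l)⁻¹) * b⁻¹ := by
      have e : ta l * (ta k)⁻¹ = (ta k)⁻¹ * ta l := by
        rw [ta_inv, ta_mul, ta_mul, add_comm]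
      calc _ = a * ta k * b * (ta l * (ta k)⁻¹) * a⁻¹ * (ta l)⁻¹ * b⁻¹ := by group
        _ = _ := by rw [e]; group
    change a * ta k * (b * ta l) * (a * ta k)⁻¹ * (b * ta l)⁻¹ ∈ A
    rw [this]
    exact A.mul_mem (A.mul_mem (A.mul_mem ha (A_conj k hb)) (A_conj l (A.inv_mem ha)))
      (A.inv_mem hb)
  rw [derivedSeries_succ, eq_bot_iff, Subgroup.commutator_le]
  intro g hg h hh
  rw [Subgroup.mem_bot, commutatorElement_eq_one_iff_mul_comm]
  exact Subtype.ext (A_comm (h1 hg) (h1 hh))

lemma G_S (i : Fin 4) {g : U} (hg : g ∈ G) : Commute (S i) (g : Module.End ℤ MM) := by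
  induction hg using Subgroup.closure_induction with
  | mem x hx =>
    rcases hx with rfl | ⟨j, rfl⟩
    · exact S_sh i 1
    · change S i * (1 + eps j 0) = (1 + eps j 0) * S i
      rw [mul_add, add_mul, S_eps]; simp
  | one => simp
  | mul x y _ _ h1 h2 => exact h1.mul_right h2
  | inv x _ h => exact h.units_inv_right

/-- words as configurations -/
def emb (w : List (Fin 4)) : Om := fun j => if j < 0 then w[(-1 - j).toNat]? else none

lemma emb_inj : Function.Injective emb := by
  intro w w' h
  apply List.ext_getElem?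
  intro n
  have := congrFun h (-1 - n)
  have e : (-1 - (n : ℤ)) < 0 := by omega
  simp only [emb, if_pos e] at this
  have e2 : (-1 - (-1 - (n : ℤ))).toNat = n := by omega
  rwa [e2] at this

/-- the generator -/
noncomputable def v : MM := Function.extend emb (fun w => (w.map s).prod (fun _ => 1)) 0

lemma v_ne : v ≠ 0 := by
  intro h
  have := congrFun (congrFun h (emb [])) 0
  rw [v, emb_inj.extend_apply] at this
  simp at this

lemma emb_cons (i : Fin 4) (w : List (Fin 4)) :
    emb (i :: w) = fun j => Function.update (emb w) 0 (some i) (j + 1) := by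
  funext j
  by_cases h : j + 1 = 0
  · have : j = -1 := by omega
    subst this
    simp [emb]
  · rw [Function.update_of_ne h]
    simp only [emb]
    by_cases h1 : j < 0
    · have h2 : j + 1 < 0 := by omega
      have e : (-1 - j).toNat = (-1 - (j + 1)).toNat + 1 := by omega
      rw [if_pos h1, if_pos h2, e, List.getElem?_cons_succ]
    · have h2 : ¬ j + 1 < 0 := by omega
      rw [if_neg h1, if_neg h2]

lemma v_rel (i : Fin 4) : eps i 0 (sh 1 v) = S i v := by
  funext ω
  rw [eps_apply, S_apply, sh_apply]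
  by_cases h : ∃ w, emb w = ω
  · obtain ⟨w, rfl⟩ := h
    have h0 : emb w 0 = none := by simp [emb]
    rw [if_pos h0, ← emb_cons, v, emb_inj.extend_apply, emb_inj.extend_apply]
    simp
  · have hv : v ω = 0 := by rw [v, Function.extend_apply' _ _ _ h]; rfl
    rw [hv, map_zero]
    split_ifs with h0
    · rw [v, Function.extend_apply']
      · rfl
      · rintro ⟨w, hw⟩
        apply h
        have h1 := congrFun hw (-1)
        cases w with
        | nil => simp [emb] at h1
        | cons a w =>
          refine ⟨w, ?_⟩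
          rw [emb_cons] at hw
          funext j
          by_cases hj : j = 0
          · subst hj; rw [h0]; simp [emb]
          · have := congrFun hw (j - 1)
            simp only [sub_add_cancel] at this
            rwa [Function.update_of_ne hj, Function.update_of_ne hj] at this
    · rfl

/-- action of the group ring -/
noncomputable def act : MonoidAlgebra ℤ G →ₐ[ℤ] Module.End ℤ MM :=
  MonoidAlgebra.lift ℤ (Module.End ℤ MM) G ((Units.coeHom _).comp G.subtype)

lemma act_of (g : G) : act (MonoidAlgebra.of ℤ G g) = ((g : U) : Module.End ℤ MM) := by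
  simp [act]

lemma act_S (i : Fin 4) (r : MonoidAlgebra ℤ G) : Commute (S i) (act r) := by
  induction r using MonoidAlgebra.induction_on with
  | of g => rw [act_of]; exact G_S i g.2
  | add f g h1 h2 => rw [map_add]; exact h1.add_right h2
  | smul c f h => rw [map_smul]; exact h.smul_right c

theorem main :
    ∃ (V : Type) (_ : AddCommGroup V) (_ : Module (MonoidAlgebra ℤ G) V),
        Nontrivial V ∧
        (∃ v : V, Submodule.span (MonoidAlgebra ℤ G) {v} = ⊤) ∧
        Nonempty (V ≃ₗ[MonoidAlgebra ℤ G] (V × V)) := by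
  let _ : Module (MonoidAlgebra ℤ G) MM := Module.compHom MM act.toRingHom
  have hsm : ∀ (r : MonoidAlgebra ℤ G) (m : MM), r • m = act r m := fun _ _ => rfl
  let L : Fin 4 → (MM →ₗ[MonoidAlgebra ℤ G] MM) := fun i =>
    { toFun := S i
      map_add' := map_add _
      map_smul' := fun r m => by
        rw [hsm, hsm]
        exact congrArg (fun f : Module.End ℤ MM => f m) (act_S i r) }
  have hL : ∀ i, L i v ∈ Submodule.span (MonoidAlgebra ℤ G) {v} := by
    intro i
    let t : G := ⟨ta 1, Subgroup.subset_closure (Or.inl rfl)⟩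
    let a : G := ⟨al i 0, Subgroup.subset_closure (Or.inr ⟨i, rfl⟩)⟩
    refine Submodule.mem_span_singleton.2
      ⟨MonoidAlgebra.of ℤ G a * MonoidAlgebra.of ℤ G t - MonoidAlgebra.of ℤ G t, ?_⟩
    rw [hsm, map_sub, map_mul, act_of, act_of]
    change ((1 + eps i 0) * sh 1 - sh 1) v = S i v
    rw [← v_rel]
    simp
  refine abstract (L 0) (L 1) (L 2) (L 3) ?_ ?_ ?_ ?_ ?_ v v_ne (hL 0) (hL 1) (hL 2) (hL 3)
  · intro m; funext ω n
    change s 2 (s 0 (m ω)) n = _
    rw [s2, s0]; simp
  · intro m; funext ω n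
    change s 3 (s 1 (m ω)) n = _
    rw [s3, s1]
    have : (2 * n + 1) / 2 = n := by omega
    simp [this]
  · intro m; funext ω n
    change s 2 (s 1 (m ω)) n = _
    rw [s2, s1]; simp
  · intro m; funext ω n
    change s 3 (s 0 (m ω)) n = _
    rw [s3, s0]; simp
  · intro m; funext ω n
    change s 0 (s 2 (m ω)) n + s 1 (s 3 (m ω)) n = _
    rw [s0, s1, s2, s3]
    by_cases h : n % 2 = 0
    · have : 2 * (n / 2) = n := by omega
      simp [h, this]
    · have : 2 * (n / 2) + 1 = n := by omega
      simp [h, this]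

end Pool.Agent.H18.Met
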